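import Mathlib
import Pool.Agent.H701.CP.Ded

/-!
# Quotients of Dedekind zeta functions at the central point `s = 1/2`

`M/K` is a Galois extension of number fields with group `G = M ≃ₐ[K] M`, an arbitrary finite group;
the fields `L` between `K` and `M` need not be Galois over `K`.

`Pool.Agent.Q92.AR.cont f` is the meromorphic continuation to `ℂ` of a function `f` given for
`Re s > 1`, and `NumberField.dedekindZeta L` is the Dedekind zeta function of `L`. For a linear
character `ρ` of a subgroup `U` of `G`, `cont (artinL M (induced U ρ))` is the Hecke L-function
`L(s, ρ)` of `ρ`, a character of the Galois group `U` of `M` over the field fixed by `U`, without the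
Euler factors at the primes of `K` which ramify in `M` (these have no zeros and poles for
`Re s > 0`). The continuations exist by Artin's reciprocity law, Hecke's theorem and Brauer's
induction theorem, which are proved in the library `Pool.Agent.Q92.AR`.

From `Pool/Agent/H701/CP`:

* `oddGen G` is the subgroup `O²(G)` generated by the elements of odd order;
* `zord K M H` is the order at `1/2` of the Dedekind zeta function of the field fixed by `H`;
* `QuatZero K M`: there is a surjection `f` of a subgroup `H` of `G` onto the quaternion group `Q₈`
  such that the zeta functions of the fields fixed by `ker f` and by `f⁻¹ {1, -1}` have different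
  orders at `1/2`. In other words: for some Galois extension `F'/F` of intermediate fields of `M/K`
  with group `Q₈`, the L-function of the irreducible character of degree `2` vanishes at `1/2`;
* `TwistZero K M` is the same with `Q₈` replaced by the groups `X` generated by a normal extraspecial
  2-group `E` with centre `{1, z}` and an element `t` of odd prime power order which acts irreducibly
  on `E / {1, z}` (structure `Twisted`; the smallest example is `X = SL₂(𝔽₃)`), and with `{1, z}`
  instead of `{1, -1}`.
-/

set_option autoImplicit false

open Pool.Agent.Q92.AR Pool.Agent.Q92.RT Pool.Agent.H701.CP Subgroup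

/-- Let `M/K` be a Galois extension of number fields with an arbitrary group `G`, let the Dedekind
zeta function of `M` have order `r` at `1/2`, and let `r < 2p` for all odd primes `p` dividing the
order of `G` (which is always true for `r ≤ 5`, and for `r ≤ 9` if `3` does not divide the order).

(1) A zero of twisted type is a zero of quaternion type.

Suppose that there is no zero of twisted type (in particular: none of quaternion type; or `G` has no
section `Q₈`).

(2) For all fields `K ⊆ L ⊆ L' ⊆ M`, Galois over `K` or not, the quotient `ζ_{L'} / ζ_L` is
holomorphic at `1/2`. More generally `L(s, ρ|_H) / L(s, ρ)` is holomorphic at `1/2` for all subgroups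
`H ≤ U` of `G` and all linear characters `ρ` of `U`.

(3) The zeros come from a solvable extension of `K`: there is a Galois extension `F/K` inside `M`, the
fixed field of `N`, with `Gal(F/K)` an extension of an abelian group of odd order by a 2-group, such
that `ζ_L` and `ζ_{L ∩ F}` have the same order at `1/2` for all `L`, and `L(1/2, ρ) ≠ 0` for all
linear characters `ρ` of subgroups `U` which are nontrivial on `U ∩ N`. Here `N ≤ O²(G)`, and `N`
contains the commutators and the elements of 2-power order of `O²(G)`.

(4) If `G` is perfect then the zeta functions of all the fields between `K` and `M` have the same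
order at `1/2`: all the quotients are holomorphic and not zero there. -/
theorem Pool.Agent.Results.MP_9fc8a5_nt.CentralQuotients.result
    (K M : Type) [Field K] [NumberField K] [Field M] [NumberField M] [Algebra K M] [IsGalois K M]
    (r : ℕ)
    (hr : meromorphicOrderAt (cont (NumberField.dedekindZeta M)) (1 / 2) = (r : WithTop ℤ))
    (hp : ∀ p : ℕ, p.Prime → p ≠ 2 → p ∣ Nat.card (M ≃ₐ[K] M) → r < 2 * p) :
    (TwistZero K M → QuatZero K M) ∧
    (¬ TwistZero K M →
      ∃ N : Subgroup (M ≃ₐ[K] M), N.Normal ∧ N ≤ oddGen (M ≃ₐ[K] M) ∧
        (∀ x ∈ oddGen (M ≃ₐ[K] M), ∀ y ∈ oddGen (M ≃ₐ[K] M), x * y * x⁻¹ * y⁻¹ ∈ N) ∧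
        (∀ x ∈ oddGen (M ≃ₐ[K] M), ∀ k : ℕ, x ^ 2 ^ k = 1 → x ∈ N) ∧
        (∀ L L' : IntermediateField K M, L ≤ L' →
          meromorphicOrderAt (cont (NumberField.dedekindZeta L)) (1 / 2) ≤
            meromorphicOrderAt (cont (NumberField.dedekindZeta L')) (1 / 2)) ∧
        (∀ L : IntermediateField K M,
          meromorphicOrderAt (cont (NumberField.dedekindZeta L)) (1 / 2) =
            meromorphicOrderAt (cont (NumberField.dedekindZeta
              (L ⊓ IntermediateField.fixedField N : IntermediateField K M))) (1 / 2)) ∧
        (∀ (H U : Subgroup (M ≃ₐ[K] M)) (hHU : H ≤ U) (ρ : U →* ℂˣ),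
          meromorphicOrderAt (cont (artinL M (induced U ρ))) (1 / 2) ≤
            meromorphicOrderAt (cont (artinL M (induced H (ρ.comp (inclusion hHU))))) (1 / 2)) ∧
        ∀ (U : Subgroup (M ≃ₐ[K] M)) (ρ : U →* ℂˣ), (∃ x : U, (x : M ≃ₐ[K] M) ∈ N ∧ ρ x ≠ 1) →
          meromorphicOrderAt (cont (artinL M (induced U ρ))) (1 / 2) = 0) ∧
    (¬ TwistZero K M → commutator (M ≃ₐ[K] M) = ⊤ → ∀ L : IntermediateField K M,
      meromorphicOrderAt (cont (NumberField.dedekindZeta L)) (1 / 2) =
        meromorphicOrderAt (cont (NumberField.dedekindZeta K)) (1 / 2)) :=
  ⟨quat_of_twist K M, fun hT => central_quot hr hp hT, fun hT hG L => central_perfect hr hp hT hG L⟩
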