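import Mathlib
import Pool.Agent.H511.Sx.Fe
import Pool.Agent.H511.Sx.Zer

/-!
# Entire quotients of the Dedekind zeta functions of explicit fields with every Galois group

Let `k` be a number field, `n ≥ 1` and `M > [k : ℚ]` a multiple of a certain `M₀`, and let `L` be the
field of the roots of `(X ^ n - 1) (X ^ M - X - 1)` over `k`. The fields `K` of the theorem contain the
`n`-th roots of unity, and `L = K(α)` for every root `α` of `X ^ M - X - 1`; the degree of `L/K` is at most
`N`, and the Galois group of `L/K` may be any group of order at most `N`. If `K'` is such a field, so are all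
fields `K` between `K'` and `L`. Then `ζ_K / ζ_{K'}` is entire for all such fields `K`, `K'` with
`[L : K] < [L : K']`; here `K'` need not be contained in `K`.

Moreover the zeta function of every such `K` vanishes at all poles of the quotients `ζ_E / ζ_{E'}` for all
fields `E`, `E'` below `L` such that `L/E` and `L/E'` are Galois, for instance for all subfields of `k` if
`k/ℚ` is Galois. So the quotient `ζ_E / ζ_{E'}` of an arbitrary extension of number fields can have a pole at
`s` only if `s` is a zero of the zeta functions of all these fields `K`, for all `M` and `n`.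

`Pool.Agent.Q92.AR.Unramified L v` says that the prime `v` of `K` is unramified in `L`.

There is no hypothesis: Artin's reciprocity law, Hecke's theorem and the functional equation of the
Dedekind zeta function are proved in the library.
-/

set_option autoImplicit false

open NumberField IsDedekindDomain Pool.Agent.Q92.AR Polynomial
open Pool.Agent.Y786.FR (one_irr)

namespace Pool.Agent.Results.MP_9fc8a5_nt.ExplicitFreeFields

/-- `K` contains the `n`-th roots of unity of `L`, and `L = K(α)` for every root `α` of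
`X ^ M - X - 1` in `L`. -/
def Free {k L : Type} [Field k] [Field L] [Algebra k L] (K : IntermediateField k L) (n M : ℕ) : Prop :=
  (∀ ζ : L, ζ ^ n = 1 → ζ ∈ K) ∧ ∀ α : L, α ^ M = α + 1 → IntermediateField.adjoin K {α} = ⊤

/-- The Dedekind zeta function of `F` has a meromorphic continuation to the plane, which has order `a`
at `s`. -/
def ZetaOrder (F : Type) [Field F] [NumberField F] (s : ℂ) (a : ℕ) : Prop :=
  ∃ Z : ℂ → ℂ, MeromorphicOn Z Set.univ ∧ (∀ z : ℂ, 1 < z.re → Z z = dedekindZeta F z) ∧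
    meromorphicOrderAt Z s = (a : WithTop ℤ)

/-- `ζ_K / ζ_{K'}` is an entire function. -/
def EntireQuotient (K K' : Type) [Field K] [NumberField K] [Field K'] [NumberField K'] : Prop :=
  ∃ g : ℂ → ℂ, Differentiable ℂ g ∧
    ∀ s : ℂ, 1 < s.re → g s = dedekindZeta K s / dedekindZeta K' s

/-- At every point `s ≠ 1` with `Re s > 0` the orders of the zeta functions of all the fields `K` of the
theorem are given by two numbers, the order `r` of the zeta function of `L` and `δ ≥ 0`:
the order of `ζ_K` is `r - (1 - 1 / [L : K]) δ`, up to an error of at most `ε δ`. -/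
def TwoNumbers (k L : Type) [Field k] [NumberField k] [Field L] [NumberField L] [Algebra k L]
    (n M N : ℕ) (ε : ℝ) : Prop :=
  ∀ s : ℂ, 0 < s.re → s ≠ 1 → ∃ (r : ℕ) (δ : ℝ), ZetaOrder L s r ∧ 0 ≤ δ ∧
    ∀ K : IntermediateField k L, Free K n M → Module.finrank K L ≤ N →
      ∃ a : ℕ, ZetaOrder K s a ∧ |(a : ℝ) - (r - (1 - 1 / (Module.finrank K L : ℝ)) * δ)| ≤ ε * δ

/-- At every point `s ≠ 1` with `Re s > 0` the order of the zeta function of every number field `E` such
that `L/E` is Galois is at most `(1 + ε) [L : K]` times the order of the zeta function of `K`. -/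
def Controls {k L : Type} [Field k] [NumberField k] [Field L] [NumberField L] [Algebra k L]
    (K : IntermediateField k L) (ε : ℝ) : Prop :=
  ∀ s : ℂ, 0 < s.re → s ≠ 1 → ∃ z : ℕ, ZetaOrder K s z ∧
    ∀ (E : Type) [Field E] [NumberField E] [Algebra E L], IsGalois E L →
      ∃ e : ℕ, ZetaOrder E s e ∧ (e : ℝ) ≤ (1 + ε) * (Module.finrank K L * z)

/-- For all `N` and `ε > 0` there is an `M₀ > 0` such that for all multiples `M > 0` of `M₀`, all number
fields `k` of degree less than `M` and all `n > 0` the splitting field `L` of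
`(X ^ n - 1) (X ^ M - X - 1)` over `k` has the following properties. We consider the fields `K` between `k`
and `L` which contain the `n`-th roots of unity, with `[L : K] ≤ N` and `L = K(α)` for every root `α` of
`X ^ M - X - 1`.

* `L/k₀` is Galois for all subfields `k₀` of `k` such that `k/k₀` is Galois.
* Every finite group of order at most `N` is the Galois group of `L/K` for such a field `K`.
* `L/K` is a Galois extension which is unramified at all finite and at all infinite places.
* If `K` and `K'` are two such fields and `[L : K] < [L : K']`, then `ζ_K / ζ_{K'}` is an entire function.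
* At every point `s ≠ 1` with `Re s > 0` there is a `δ ≥ 0` such that for all these fields `K` the order of
  `ζ_K` is `ord ζ_L - (1 - 1 / [L : K]) δ`, with an error of at most `ε δ`.
* At these points the order of `ζ_E` is at most `(1 + ε) [L : K] ord ζ_K`, for all number fields `E` such that
  `L/E` is Galois. So a pole of a quotient of the zeta functions of such fields `E` is a zero of `ζ_K`. -/
theorem result (N : ℕ) (ε : ℝ) (hε : 0 < ε) :
    ∃ M₀ : ℕ, 0 < M₀ ∧ ∀ M : ℕ, 0 < M → M₀ ∣ M →
      ∀ (k : Type) [Field k] [NumberField k], Module.finrank ℚ k < M → ∀ n : ℕ, 0 < n →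
      ∀ (L : Type) [Field L] [NumberField L] [Algebra k L],
        IsSplittingField k L ((X ^ n - 1) * (X ^ M - X - 1) : k[X]) →
        (∀ (k₀ : Type) [Field k₀] [NumberField k₀] [Algebra k₀ k] [Algebra k₀ L]
          [IsScalarTower k₀ k L], IsGalois k₀ k → IsGalois k₀ L) ∧
        (∀ (G : Type) [Group G] [Finite G], Nat.card G ≤ N →
          ∃ K : IntermediateField k L, Free K n M ∧ Nonempty ((L ≃ₐ[K] L) ≃* G) ∧
            Module.finrank K L = Nat.card G) ∧
        (∀ K : IntermediateField k L, Free K n M → Module.finrank K L ≤ N →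
          IsGalois K L ∧ (∀ v : HeightOneSpectrum (𝓞 K), Unramified L v) ∧
            IsUnramifiedAtInfinitePlaces K L ∧ Controls K ε) ∧
        (∀ K K' : IntermediateField k L, Free K n M → Free K' n M →
          Module.finrank K L < Module.finrank K' L → Module.finrank K' L ≤ N →
            EntireQuotient K K') ∧
        TwoNumbers k L n M N ε := by
  classical
  have hN0 : (0 : ℝ) ≤ N := Nat.cast_nonneg N
  set ε' : ℝ := min ε (1 / (2 * ((N : ℝ) + 1) ^ 2)) with hε'
  have he0 : 0 < ε' := lt_min hε (by positivity)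
  have he1 : ε' ≤ ε := min_le_left _ _
  have he2 : ε' ≤ 1 / (2 * ((N : ℝ) + 1) ^ 2) := min_le_right _ _
  obtain ⟨m₀, hm₀, h⟩ := Pool.Agent.H511.Sx.main N ε hε
  obtain ⟨m₁, hm₁, h'⟩ := Pool.Agent.H511.Sx.orders N ε' he0
  refine ⟨2 * (m₀ * m₁), by positivity, ?_⟩
  rintro M hM ⟨c, rfl⟩ k _ _ hk n hn L _ _ _ hL
  have hM' : 2 * (m₀ * m₁) * c = 2 * (m₀ * m₁ * c) := by ring
  have hc : 0 < c := Nat.pos_of_ne_zero fun h0 => by rw [h0, mul_zero] at hM; exact lt_irrefl 0 hM
  have hmpos : 0 < m₀ * m₁ * c := by positivity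
  rw [hM'] at hk hL ⊢
  obtain ⟨hgal, hK, hG⟩ := h (m₀ * m₁ * c) hmpos ⟨m₁ * c, by ring⟩ k hk n hn L hL
  have ho := h' (m₀ * m₁ * c) hmpos ⟨m₀ * c, by ring⟩ k hk n hn L hL
  have hL' : Pool.Agent.H511.Sx.IsField k L n (2 * (m₀ * m₁ * c)) := hL
  refine ⟨?_, ?_, ?_, ?_, ?_⟩
  · intro k₀ _ _ _ _ _ hk₀
    exact Pool.Agent.H511.Sx.galois_below hn (by omega) hL' hk₀
  · intro G _ _ hGN
    obtain ⟨K, hK1, ⟨e⟩⟩ := hG G hGN
    refine ⟨K, hK1, ⟨e⟩, ?_⟩
    rw [← IsGalois.card_aut_eq_finrank]
    exact Nat.card_congr e.toEquiv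
  · intro K hF hKN
    obtain ⟨h1, h2, -, h4, h5⟩ := hK K hF hKN
    refine ⟨inferInstance, h1, h2, fun s h0 hs => ?_⟩
    obtain ⟨z, hz, hz2⟩ := Pool.Agent.H511.Sx.control K hε
      (fun χ hχ s h0 hs => (h4 χ hχ).2.2.1 s h0 (Or.inl hs)) h5 h0 hs
    have hcK := cont_spec (Pool.Agent.H511.Sx.zeta_continues K)
    refine ⟨z, ⟨_, hcK.1, hcK.2, hz⟩, fun E _ _ _ hE => ?_⟩
    obtain ⟨e, he, he2⟩ := hz2 E (fun _ => 1) one_irr
    have hcE := cont_spec (Pool.Agent.H511.Sx.zeta_continues E)
    rw [← Pool.Agent.H511.Ex.zeta_base (F := E) (L := L) h0 hs] at he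
    obtain ⟨e', he'⟩ := Pool.Agent.H511.Ex.zeta_top E (L := E) h0 hs
    refine ⟨e', ⟨_, hcE.1, hcE.2, he'⟩, ?_⟩
    rw [he'] at he
    have h6 : ((e' : ℤ)) = e := by exact_mod_cast he
    rw [← h6] at he2
    have h7 : |((e' : ℤ) : ℝ)| = (e' : ℝ) := by
      rw [Int.cast_natCast, Nat.abs_cast]
    rw [h7] at he2
    exact he2
  · intro K K' hF hF' hlt hle
    have hu := (hK K hF (hlt.le.trans hle)).2.1
    have hu' := (hK K' hF' hle).2.1
    obtain ⟨hA, hB⟩ := Pool.Agent.H511.Sx.places (L := L) (F := K) (F' := K') hlt.le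
    refine Pool.Agent.H511.Sx.quo_entire (Pool.Agent.H511.Sx.order_le hA hB ?_)
    intro z hz hz1
    obtain ⟨r, δ, -, hδ, hall⟩ := ho z hz hz1
    obtain ⟨a, ha, ha2⟩ := hall K hF (hlt.le.trans hle)
    obtain ⟨b, hb, hb2⟩ := hall K' hF' hle
    rw [ha, hb]
    have hd : (0 : ℝ) < Module.finrank K L := by exact_mod_cast Module.finrank_pos
    have hd' : (0 : ℝ) < Module.finrank K' L := by exact_mod_cast Module.finrank_pos
    have hdd : (Module.finrank K L : ℝ) + 1 ≤ Module.finrank K' L := by exact_mod_cast hlt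
    have hdN : (Module.finrank K' L : ℝ) ≤ N := by exact_mod_cast hle
    have h3 : 1 / ((N : ℝ) + 1) ^ 2 ≤
        1 / (Module.finrank K L : ℝ) - 1 / (Module.finrank K' L : ℝ) := by
      rw [div_sub_div _ _ hd.ne' hd'.ne', div_le_div_iff₀ (by positivity) (by positivity)]
      nlinarith
    have h4 : 2 * ε' ≤ 1 / ((N : ℝ) + 1) ^ 2 := by
      calc 2 * ε' ≤ 2 * (1 / (2 * ((N : ℝ) + 1) ^ 2)) := by linarith
        _ = 1 / ((N : ℝ) + 1) ^ 2 := by field_simp
    have h5 : 2 * ε' * δ ≤
        (1 / (Module.finrank K L : ℝ) - 1 / (Module.finrank K' L : ℝ)) * δ :=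
      mul_le_mul_of_nonneg_right (h4.trans h3) hδ
    have h6 := abs_le.1 ha2
    have h7 := abs_le.1 hb2
    have h8 : (b : ℝ) ≤ a := by linarith [h6.1, h7.2]
    have h9 : ((b : ℤ)) ≤ (a : ℤ) := by exact_mod_cast h8
    exact_mod_cast h9
  · intro s hs hs1
    obtain ⟨r, δ, hr, hδ, hall⟩ := ho s hs hs1
    have hcL := cont_spec (Pool.Agent.H511.Sx.zeta_continues L)
    refine ⟨r, δ, ⟨_, hcL.1, hcL.2, hr⟩, hδ, fun K hF hKN => ?_⟩
    obtain ⟨a, ha, ha2⟩ := hall K hF hKN
    have hcK := cont_spec (Pool.Agent.H511.Sx.zeta_continues K)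
    exact ⟨a, ⟨_, hcK.1, hcK.2, ha⟩, ha2.trans (mul_le_mul_of_nonneg_right he1 hδ)⟩

end Pool.Agent.Results.MP_9fc8a5_nt.ExplicitFreeFields
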