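import Pool.Agent.H112.NF.Asm

/-!
# Quotients of Dedekind zeta functions: one mean square of a sum over prime ideals

`L/K` is any extension of number fields.  Let

`P(u) = ∑ log N𝔭 · N𝔭^(-k/2) · exp (-|u - k log N𝔭|)`, the sum over the powers `𝔭^k`, `k ≥ 1`, of the prime ideals
of `L`, minus the same sum for `K` (with `x = e^u` the weight is `min (N𝔭^k / x, x / N𝔭^k)`), and let `M2 U` be the mean
of `P²` over `[0, U]`.  Let `V = V_L - V_K`, `V_E = 2 (ξ_E'/ξ_E)(3/2) - 2 (ξ_E'/ξ_E)'(3/2)` with the completed Dedekind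
zeta function `ξ_E(s) = s (s-1) |d_E|^(s/2) Γ_ℝ(s)^(r₁) Γ_ℂ(s)^(r₂) ζ_E(s)`.  Then `limsup M2 ≥ V` always, and
`limsup M2 = V` if and only if `ζ_L/ζ_K` is an entire function, all its zeros with `Re s > 0` are on the critical
line, and they are simple.
-/

set_option autoImplicit false

namespace Pool.Agent.Results.MP_9fc8a5_nt.QuotientMeanSquare

open MeasureTheory Filter Topology Set Complex NumberField IsDedekindDomain

/-- `f` is meromorphic on `ℂ` and continues the function `g`, given for `Re s > 1` -/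
def Continues (f g : ℂ → ℂ) : Prop := MeromorphicOn f Set.univ ∧ ∀ s : ℂ, 1 < s.re → f s = g s

open Classical in
/-- the order at `s` of the meromorphic continuation of the Dedekind zeta function of `E` -/
noncomputable def ord (E : Type) [Field E] [NumberField E] (s : ℂ) : ℤ :=
  if h : ∃ f, Continues f (dedekindZeta E) then (meromorphicOrderAt h.choose s).untop₀ else 0

/-- the completed Dedekind zeta function times `s (s - 1)`, for `Re s > 1` -/
noncomputable def xi (E : Type) [Field E] [NumberField E] (s : ℂ) : ℂ :=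
  s * (s - 1) * ((|(discr E : ℝ)| : ℝ) : ℂ) ^ (s / 2) * Gammaℝ s ^ InfinitePlace.nrRealPlaces E *
    Gammaℂ s ^ InfinitePlace.nrComplexPlaces E * dedekindZeta E s

/-- the constant of a field -/
noncomputable def VE (E : Type) [Field E] [NumberField E] : ℝ :=
  2 * (logDeriv (xi E) (3 / 2) - deriv (logDeriv (xi E)) (3 / 2)).re

/-- the sum over the powers `𝔭^(n+1)` of the prime ideals of `E` -/
noncomputable def psum (E : Type) [Field E] [NumberField E] (u : ℝ) : ℝ :=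
  ∑' x : HeightOneSpectrum (𝓞 E) × ℕ, Real.log (Ideal.absNorm x.1.asIdeal) *
    Real.exp (-(((x.2 : ℝ) + 1) * Real.log (Ideal.absNorm x.1.asIdeal) / 2)) *
    Real.exp (-|u - ((x.2 : ℝ) + 1) * Real.log (Ideal.absNorm x.1.asIdeal)|)

section
variable (K L : Type) [Field K] [NumberField K] [Field L] [NumberField L]

/-- the prime ideal sum of `ζ_L / ζ_K` -/
noncomputable def P (u : ℝ) : ℝ := psum L u - psum K u

/-- the order of `ζ_L / ζ_K` at `s` -/
noncomputable def n (s : ℂ) : ℤ := ord L s - ord K s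

/-- the mean square of the prime ideal sum -/
noncomputable def M2 (U : ℝ) : ℝ := (1 / U) * ∫ u in (0 : ℝ)..U, P K L u ^ 2

/-- the Fourier means of the prime ideal sum -/
noncomputable def C1 (t U : ℝ) : ℝ := (1 / U) * ∫ u in (0 : ℝ)..U, -P K L u * Real.cos (t * u)

/-- the constant of the extension -/
noncomputable def V : ℝ := VE L - VE K

/-- no zeros and poles of `ζ_L / ζ_K` with `Re s > 1/2` -/
def RH : Prop := ∀ s : ℂ, 1 / 2 < s.re → n K L s = 0

/-- `ζ_L / ζ_K` is entire -/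
def Entire : Prop := ∃ g : ℂ → ℂ, Differentiable ℂ g ∧ ∀ s : ℂ, 1 < s.re → g s = dedekindZeta L s / dedekindZeta K s

end

theorem result (K L : Type) [Field K] [NumberField K] [Field L] [NumberField L] [Algebra K L] :
    -- bounded mean square: no zeros and poles off the critical line
    (RH K L ↔ ∃ C : ℝ, ∀ᶠ U : ℝ in atTop, M2 K L U ≤ C) ∧
    -- the mean square and the Fourier means
    (RH K L →
      Summable (fun γ : ℝ => (n K L (1 / 2 + γ * I) : ℝ) * ((n K L (1 / 2 + γ * I) : ℝ) - 1) * (2 / (1 + γ ^ 2)) ^ 2) ∧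
      Tendsto (M2 K L) atTop (𝓝 (V K L +
        ∑' γ : ℝ, (n K L (1 / 2 + γ * I) : ℝ) * ((n K L (1 / 2 + γ * I) : ℝ) - 1) * (2 / (1 + γ ^ 2)) ^ 2)) ∧
      (∀ t : ℝ, Tendsto (C1 K L t) atTop (𝓝 ((n K L (1 / 2 + t * I) : ℝ) * (2 / (1 + t ^ 2))))) ∧
      (Entire K L ↔ ∀ t : ℝ, 0 ≤ n K L (1 / 2 + t * I))) ∧
    -- entire and Riemann hypothesis
    ((Entire K L ∧ RH K L) ↔ ((∃ C : ℝ, ∀ᶠ U : ℝ in atTop, M2 K L U ≤ C) ∧
      ∀ t ε : ℝ, 0 < ε → ∀ᶠ U : ℝ in atTop, -ε ≤ C1 K L t U)) ∧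
    -- entire, Riemann hypothesis, and simple zeros: one inequality
    ((Entire K L ∧ RH K L ∧ ∀ t : ℝ, n K L (1 / 2 + t * I) ≤ 1) ↔
      ∀ ε : ℝ, 0 < ε → ∀ᶠ U : ℝ in atTop, M2 K L U ≤ V K L + ε) ∧
    ((Entire K L ∧ RH K L ∧ ∀ t : ℝ, n K L (1 / 2 + t * I) ≤ 1) ↔ Tendsto (M2 K L) atTop (𝓝 (V K L))) ∧
    -- an approximate inequality: simple zeros and no poles up to a height
    ∀ δ : ℝ, (∀ ε : ℝ, 0 < ε → ∀ᶠ U : ℝ in atTop, M2 K L U ≤ V K L + δ + ε) →
      0 ≤ δ ∧ RH K L ∧ (∀ t : ℝ, (n K L (1 / 2 + t * I) : ℝ) * ((n K L (1 / 2 + t * I) : ℝ) - 1) *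
        (2 / (1 + t ^ 2)) ^ 2 ≤ δ) ∧
      ∀ t : ℝ, δ * (1 + t ^ 2) ^ 2 < 8 → 0 ≤ n K L (1 / 2 + t * I) ∧ n K L (1 / 2 + t * I) ≤ 1 := by
  obtain ⟨DK, hK⟩ := Pool.Agent.H112.NF.ded K
  obtain ⟨DL, hL⟩ := Pool.Agent.H112.NF.ded L
  have h : ∀ s, n K L s = Pool.Agent.Q253.NF.T1.n K L s := fun s => rfl
  obtain ⟨h1, h2, h3, h4, h5, h6⟩ := Pool.Agent.Q253.NF.T1.main Pool.Agent.H112.NF.pf Pool.Agent.H112.NF.ef
    Pool.Agent.H112.NF.la Pool.Agent.Q153.NF.ms Pool.Agent.H112.NF.vf Pool.Agent.Q177.NF.msq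
    Pool.Agent.Q208.NF.t_ENT hK hL
  refine ⟨h1, h2, h3, h4, h5, fun δ hδ => ?_⟩
  obtain ⟨h7, h8⟩ := h6 δ hδ
  have hn : ∀ m : ℤ, (0 : ℝ) ≤ (m : ℝ) * ((m : ℝ) - 1) := by
    intro m
    have h9 : 0 ≤ m * (m - 1) := by
      rcases le_or_gt m 0 with h | h <;> nlinarith
    exact_mod_cast h9
  refine ⟨?_, h7, h8, fun t ht => ?_⟩
  · exact le_trans (mul_nonneg (hn _) (sq_nonneg _)) (h8 0)
  · set m := n K L (1 / 2 + t * I) with hm
    have h9 : (m : ℝ) * ((m : ℝ) - 1) * (2 / (1 + t ^ 2)) ^ 2 ≤ δ := h8 t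
    by_contra hcon
    have h10 : 2 ≤ m * (m - 1) := by
      have h11 : m ≤ -1 ∨ 2 ≤ m := by
        by_contra h12
        apply hcon
        rw [not_or] at h12
        omega
      rcases h11 with h | h <;> nlinarith
    have h11 : (2 : ℝ) ≤ (m : ℝ) * ((m : ℝ) - 1) := by exact_mod_cast h10
    have h12 : (0 : ℝ) < (1 + t ^ 2) ^ 2 := by positivity
    have h13 : (2 : ℝ) * (2 / (1 + t ^ 2)) ^ 2 ≤ δ :=
      le_trans (mul_le_mul_of_nonneg_right h11 (by positivity)) h9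
    rw [div_pow, ← mul_div_assoc, div_le_iff₀ h12] at h13
    linarith

end Pool.Agent.Results.MP_9fc8a5_nt.QuotientMeanSquare
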