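import Mathlib
import Pool.Agent.H377.CH.Num

/-!
# Zeros of order `r` and the nonabelian simple factors of the Galois group

`M/K` is a Galois extension of number fields with group `G = M ≃ₐ[K] M`, an arbitrary finite group;
the fields `L` between `K` and `M` need not be Galois over `K`. `s₀` is a point with `Re s₀ > 0`,
`s₀ ≠ 1`, and `r` is the order of the Dedekind zeta function of `M` at `s₀`.

`Pool.Agent.Q92.AR.cont f` is the meromorphic continuation to `ℂ` of a function `f` given for
`Re s > 1`, and `NumberField.dedekindZeta L` is the Dedekind zeta function of `L`.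
`Pool.Agent.H541R3.ART.Irr G` is the set of irreducible complex characters of `G`, and
`Pool.Agent.Q92.AR.artinL M χ` is the Artin L-function `L(s, χ)` for `Re s > 1`, without the Euler
factors at the primes of `K` which ramify in `M` (these have no zeros and poles for `Re s > 0`). For a
linear character `ρ` of a subgroup `U` of `G`, `artinL M (induced U ρ)` is the Hecke L-function of `ρ`
over the field fixed by `U`. The continuations exist by Artin's reciprocity law, Hecke's theorem and
Brauer's induction theorem, which are proved in the library `Pool.Agent.Q92.AR`.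

From `Pool/Agent/H377/CH`:

* `Prd f`, for homomorphisms `f i` from a group `B` to groups `T i`: the `T i` are nonabelian simple
  groups, `B → ∏ T i` is surjective, and the common kernel of the `f i` is solvable. In short: `B` is an
  extension of the direct product of the simple groups `T i` by a solvable group.
* `Weight b T`, for a nonabelian simple group `T`: `b = 2`; or `b = 3`, `|T| ≥ 165` and no finite
  perfect central extension of `T` has exactly one involution; or `b ≥ 2`, `30 ^ b ≤ |T| ^ 2` and all
  finite perfect central extensions `X` of `T` are `Rigid b`: every class function on `X` with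
  nonnegative integral multiplicities against the linear characters of the solvable subgroups, and with
  a value less than `b` at `1`, is constant.
* `LongFactors r B`, for a normal subgroup `B` of `G`: every nonabelian chief factor `L / S` of `G` with
  `L ≤ B` has more than `r / 2` simple factors.
-/

set_option autoImplicit false

open Pool.Agent.H541R3.ART Pool.Agent.Q92.AR Pool.Agent.H377.CH

/-- Let `M/K` be a Galois extension of number fields with an arbitrary group `G`, `Re s₀ > 0`,
`s₀ ≠ 1`, and let the Dedekind zeta function of `M` have order `r` at `s₀`. There is a normal subgroup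
`N` of `G`, with the fixed field `F = M ^ N` and `Q = G / N = Gal(F/K)`, such that the following holds.

(1) For all normal subgroups `B` of `G`: the zeta function of `M ^ B` has order `r` at `s₀` if and only
if `B ≤ N`. So `F` is the smallest Galois extension of `K` in `M` whose zeta function has order `r`.

(2) `ζ_L` and `ζ_{L ∩ F}` have the same order at `s₀`, for all fields `K ⊆ L ⊆ M`.

(3) `L(s, χ)` is holomorphic and not zero at `s₀` for all irreducible characters `χ` of `G` which are
nontrivial on `N`; the same holds for the Hecke L-functions of the linear characters `ρ` of subgroups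
`U` which are nontrivial on `U ∩ N`.

(4) If a normal subgroup `B` of `Q` is an extension of a product of nonabelian simple groups
`T₁ × ⋯ × T_t` by a solvable group, then `b₁ + ⋯ + b_t ≤ r` for all admissible weights `b_i` of the
`T_i`. In particular `2 t ≤ r`: each nonabelian simple factor costs two zeros. (For `r ≤ 3`: the factor
group of `Q` modulo its largest solvable normal subgroup has at most one minimal normal subgroup, and
this is simple.)

(5) If all nonabelian chief factors of `G` in the normal subgroup `B` have more than `r / 2` simple
factors, then the image of `B` in `Q` is solvable.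

(6) Let `K ⊆ L ⊆ L' ⊆ M`. If the group of `F / (F ∩ L)` is solvable (for example if `Q` is solvable)
then `ζ_{L'} / ζ_L` is holomorphic at `s₀`. -/
theorem Pool.Agent.Results.MP_9fc8a5_nt.SimpleFactorsOfZeros.result
    (K M : Type) [Field K] [NumberField K] [Field M] [NumberField M] [Algebra K M] [IsGalois K M]
    (s₀ : ℂ) (h0 : 0 < s₀.re) (h1 : s₀ ≠ 1) (r : ℕ)
    (hr : meromorphicOrderAt (cont (NumberField.dedekindZeta M)) s₀ = (r : WithTop ℤ)) :
    ∃ (N : Subgroup (M ≃ₐ[K] M)) (_ : N.Normal),
      (∀ B : Subgroup (M ≃ₐ[K] M), B.Normal →
        (B ≤ N ↔ meromorphicOrderAt (cont (NumberField.dedekindZeta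
          (IntermediateField.fixedField B))) s₀ = (r : WithTop ℤ))) ∧
      (∀ L : IntermediateField K M,
        meromorphicOrderAt (cont (NumberField.dedekindZeta L)) s₀ =
          meromorphicOrderAt (cont (NumberField.dedekindZeta
            (L ⊓ IntermediateField.fixedField N : IntermediateField K M))) s₀) ∧
      ((∀ χ ∈ Irr (M ≃ₐ[K] M), (∃ x ∈ N, χ x ≠ χ 1) →
        Continues (cont (artinL M χ)) (artinL M χ) ∧
          meromorphicOrderAt (cont (artinL M χ)) s₀ = 0) ∧
      (∀ (U : Subgroup (M ≃ₐ[K] M)) (ρ : U →* ℂˣ), (∃ x : U, (x : M ≃ₐ[K] M) ∈ N ∧ ρ x ≠ 1) →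
        meromorphicOrderAt (cont (artinL M (Pool.Agent.Q92.RT.induced U ρ))) s₀ = 0)) ∧
      (∀ B : Subgroup ((M ≃ₐ[K] M) ⧸ N), B.Normal → ∀ (t : ℕ) (T : Fin t → Type)
        (_ : ∀ i, Group (T i)) (f : ∀ i, B →* T i) (b : Fin t → ℕ), Prd f →
        (∀ i, Weight (b i) (T i)) → ∑ i, b i ≤ r) ∧
      (∀ B : Subgroup (M ≃ₐ[K] M), B.Normal → LongFactors r B →
        Group.IsSolvable (B.map (QuotientGroup.mk' N))) ∧
      (∀ L L' : IntermediateField K M, L ≤ L' →
        Group.IsSolvable (L.fixingSubgroup.map (QuotientGroup.mk' N)) →
        meromorphicOrderAt (cont (NumberField.dedekindZeta L)) s₀ ≤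
          meromorphicOrderAt (cont (NumberField.dedekindZeta L')) s₀) := by
  obtain ⟨N, hN, c1, c2, c3, c4, c5, c6, c7, c8⟩ := zeros_structure (K := K) h0 h1 hr
  exact ⟨N, hN, c1, c4, ⟨c2, c3⟩, c5, c6, c8⟩
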